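import Pool.Agent.R929.OD.Low

/-!
# The basic inequality
-/

open scoped ComplexConjugate Topology

namespace Pool.Agent.R929.OD

open Module Finset Pool.Agent.TH125.Tw Pool.Agent.W539.DI
open Pool.Agent.R929.DH (IsHerm semi_sub exists_max_sub)

variable {n : ℕ} {X : Twisted n} {L : Module.End ℂ X.H}

theorem low_le {a b t : ℕ} {K : Submodule ℂ X.H}
    (h : ∀ s < t, ∀ x ∈ X.piece (a + s) (b + s), x ∈ K) : X.low a b t ≤ K :=
  Finset.sup_le fun s hs x hx => h s (mem_range.1 hs) x hx

/-- The submodule of the vectors which are orthogonal to `y`. -/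
def left (L : Module.End ℂ X.H) (k : ℕ) (y : X.H) : Submodule ℂ X.H where
  carrier := {x | hf X L k x y = 0}
  add_mem' := fun {u v} hu hv => by
    simp only [Set.mem_ofPred_eq] at *
    rw [hf_add_left, hu, hv, add_zero]
  zero_mem' := by
    have := hf_smul_left (X := X) (w := L) (k := k) 0 0 y
    simpa using this
  smul_mem' := fun c u hu => by
    simp only [Set.mem_ofPred_eq] at *
    rw [hf_smul_left, hu, mul_zero]

/-- The submodule of the vectors to which `x` is orthogonal. -/
def right (L : Module.End ℂ X.H) (k : ℕ) (x : X.H) : Submodule ℂ X.H where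
  carrier := {y | hf X L k x y = 0}
  add_mem' := fun {u v} hu hv => by
    simp only [Set.mem_ofPred_eq] at *
    rw [hf_add_right, hu, hv, add_zero]
  zero_mem' := by
    have := hf_smul_right (X := X) (w := L) (k := k) 0 x 0
    simpa using this
  smul_mem' := fun c u hu => by
    simp only [Set.mem_ofPred_eq] at *
    rw [hf_smul_right, hu, mul_zero]

theorem hf_low_zero (hL : IsCupProduct X.toGradedForm L) {a b c d k r t : ℕ}
    (h : ∀ s < r, ∀ s' < t, a + s + (d + s') + k ≠ n) {x y : X.H} (hx : x ∈ X.low a b r)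
    (hy : y ∈ X.low c d t) : hf X L k x y = 0 := by
  have h1 : X.low a b r ≤ left L k y := by
    refine low_le fun s hs x hx => ?_
    have h2 : X.low c d t ≤ right L k x := low_le fun s' hs' y hy => hf_zero hL hx hy (h s hs s' hs')
    exact h2 hy
  exact h1 hx

theorem mem_low_one {p q : ℕ} {x : X.H} (hx : x ∈ X.piece p q) : x ∈ X.low p q 1 :=
  X.piece_le_low (a := p) (b := q) (s := 0) (by norm_num) (by simpa using hx)

theorem hf_column_conj (hL : IsCupProduct X.toGradedForm L) {a b s₀ κ : ℕ}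
    (hn : a + b + 2 * s₀ + κ = n) {x y : X.H} (hx : x ∈ X.column a b) (hy : y ∈ X.column a b) :
    hf X L κ y x = conj (hf X L κ x y) := by
  refine X.column_ind (P := fun x => hf X L κ y x = conj (hf X L κ x y)) ?_ ?_ ?_ hx
  · have h1 := hf_smul_left (X := X) (w := L) (k := κ) 0 0 y
    have h2 := hf_smul_right (X := X) (w := L) (k := κ) 0 y 0
    rw [zero_smul, zero_mul] at h1
    rw [zero_smul, map_zero, zero_mul] at h2
    rw [h1, h2, map_zero]
  · intro u v hu hv
    rw [hf_add_left, hf_add_right, hu, hv, map_add]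
  · intro p q hpq x hx
    refine X.column_ind (P := fun y => hf X L κ y x = conj (hf X L κ x y)) ?_ ?_ ?_ hy
    · have h1 := hf_smul_left (X := X) (w := L) (k := κ) 0 0 x
      have h2 := hf_smul_right (X := X) (w := L) (k := κ) 0 x 0
      rw [zero_smul, zero_mul] at h1
      rw [zero_smul, map_zero, zero_mul] at h2
      rw [h1, h2, map_zero]
    · intro u v hu hv
      rw [hf_add_left, hf_add_right, hu, hv, map_add]
    · intro p' q' hpq' y hy
      by_cases h : p + q' + κ = n
      · exact hf_conj hL hx hy h (by omega) ⟨q + a + κ + s₀, by omega⟩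
      · rw [hf_zero hL hx hy h, hf_zero hL hy hx (by omega), map_zero]

theorem low_le_column {a b c t : ℕ} : X.low (a + c) (b + c) t ≤ X.column a b := by
  refine low_le fun s _ x hx => ?_
  have h1 := X.piece_le_column _ _ hx
  rwa [X.column_shift (a := a) (b := b) (by omega)] at h1

/-- Nondegeneracy of the pairing of the lower with the upper part. -/
theorem low_nondeg (hL : DefectTwo X L) {a b s₀ κ : ℕ} (hn : a + b + 2 * s₀ + κ = n) :
    ∀ r ≤ s₀, ∀ y ∈ X.low a b r,
      (∀ x ∈ X.low (a + (s₀ + 1)) (b + (s₀ + 1)) (s₀ + κ), hf X L κ x y = 0) → y = 0 := by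
  intro r
  induction r with
  | zero =>
    intro _ y hy _
    rw [X.low_zero] at hy
    exact (Submodule.mem_bot ℂ).1 hy
  | succ r ih =>
    intro hr y hy h
    rw [X.low_succ] at hy
    obtain ⟨u, hu, y', hy', rfl⟩ := Submodule.mem_sup.1 hy
    have hu0 : u = 0 := by
      have h1 : ∀ x ∈ X.piece (a + (2 * s₀ - r)) (b + (2 * s₀ - r)), hf X L κ x u = 0 := by
        intro x hx
        have hx' : x ∈ X.low (a + (s₀ + 1)) (b + (s₀ + 1)) (s₀ + κ) := by
          refine X.piece_le_low (s := s₀ - 1 - r) (by omega) ?_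
          have e1 : a + (s₀ + 1) + (s₀ - 1 - r) = a + (2 * s₀ - r) := by omega
          have e2 : b + (s₀ + 1) + (s₀ - 1 - r) = b + (2 * s₀ - r) := by omega
          rw [e1, e2]
          exact hx
        have h2 := h x hx'
        rw [hf_add_right] at h2
        have h3 : hf X L κ x y' = 0 := hf_low_zero hL.cup
          (a := a + (2 * s₀ - r)) (b := b + (2 * s₀ - r)) (r := 1) (c := a) (d := b) (t := r)
          (fun s hs s' hs' => by omega) (mem_low_one hx) hy'
        rwa [h3, add_zero] at h2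
      have h4 : (L ^ κ) u = 0 := by
        refine X.form_nondeg _ fun y => ?_
        refine X.ind (P := fun y => X.form ((L ^ κ) u) y = 0) (map_zero _) ?_ ?_ y
        · intro c d hc hd
          rw [map_add, hc, hd, add_zero]
        · intro p' q' y hy
          by_cases hpq : (a + r + κ + q', b + r + κ + p') = (n, n)
          · have e1 := congrArg Prod.fst hpq
            have e2 := congrArg Prod.snd hpq
            simp only at e1 e2
            have e3 : p' = a + (2 * s₀ - r) := by omega
            have e4 : q' = b + (2 * s₀ - r) := by omega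
            rw [e3, e4] at hy
            have h5 := h1 y hy
            rw [hf_hom hy] at h5
            have h6 := (mul_eq_zero.mp h5).resolve_left (pow_ne_zero _ Complex.I_ne_zero)
            rw [X.form_swap hy (pow_mem hL.cup hu κ), h6, map_zero, mul_zero]
          · exact X.form_zero (pow_mem hL.cup hu κ) hy hpq
      refine hL.inj (a + r) (b + r) (κ + 2 * (s₀ - r - 1)) (by omega) u hu ?_
      rw [add_comm κ, pow_add, Module.End.mul_apply, h4, map_zero]
    rw [hu0, zero_add]
    refine ih (by omega) y' hy' fun x hx => ?_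
    have h7 := h x hx
    rwa [hu0, zero_add] at h7

/-- The vectors in the upper part which are orthogonal to the lower part. -/
theorem exists_ker (hL : DefectTwo X L) {a b s₀ κ : ℕ} (hn : a + b + 2 * s₀ + κ = n) :
    ∃ K : Submodule ℂ X.H, finrank ℂ K + finrank ℂ (X.low a b s₀) =
        finrank ℂ (X.low (a + (s₀ + 1)) (b + (s₀ + 1)) (s₀ + κ)) ∧
      ∀ x ∈ X.low (a + (s₀ + 1)) (b + (s₀ + 1)) (s₀ + κ),
        (∀ y ∈ X.low a b s₀, hf X L κ x y = 0) → x ∈ K := by
  let V := X.low (a + (s₀ + 1)) (b + (s₀ + 1)) (s₀ + κ)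
  let Z := X.low a b s₀
  let v := finBasis ℂ Z
  let T : V →ₗ[ℂ] (Fin (finrank ℂ Z) → ℂ) := LinearMap.pi fun i =>
    (((X.form.flip ((L ^ κ) (v i : X.H))) ∘ₗ X.dual) ∘ₗ V.subtype)
  have hT : ∀ x i, T x i = hf X L κ (x : X.H) (v i : X.H) := fun x i => rfl
  have hsurj : LinearMap.range T = ⊤ := by
    by_contra hne
    obtain ⟨f, hf0, hf1⟩ := Submodule.exists_le_ker_of_lt_top (LinearMap.range T)
      (lt_top_iff_ne_top.2 hne)
    let c : Fin (finrank ℂ Z) → ℂ := fun i => f (Pi.single i 1)
    have hfc : ∀ z, f z = ∑ i, z i * c i := by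
      intro z
      conv_lhs => rw [pi_eq_sum_univ' z]
      rw [map_sum]
      refine Finset.sum_congr rfl fun i _ => ?_
      rw [map_smul, smul_eq_mul]
    let y : X.H := ∑ i, conj (c i) • (v i : X.H)
    have hy : y ∈ Z := Submodule.sum_mem _ fun i _ => Submodule.smul_mem _ _ (v i).2
    have hy2 : ∀ x ∈ V, hf X L κ x y = 0 := by
      intro x hx
      have h1 : hf X L κ x y = ∑ i, c i * hf X L κ x (v i : X.H) := by
        have h2 : ∀ s : Finset (Fin (finrank ℂ Z)),
            hf X L κ x (∑ i ∈ s, conj (c i) • (v i : X.H)) =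
              ∑ i ∈ s, c i * hf X L κ x (v i : X.H) := by
          intro s
          induction s using Finset.cons_induction with
          | empty =>
            have := hf_smul_right (X := X) (w := L) (k := κ) 0 x 0
            simpa using this
          | cons a s ha ih =>
            rw [Finset.sum_cons, Finset.sum_cons, hf_add_right, hf_smul_right, ih,
              Complex.conj_conj]
        exact h2 Finset.univ
      have h3 : f (T ⟨x, hx⟩) = 0 := hf1 ⟨⟨x, hx⟩, rfl⟩
      rw [hfc] at h3
      rw [h1, ← h3]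
      refine Finset.sum_congr rfl fun i _ => ?_
      rw [hT, mul_comm]
    have hy0 : y = 0 := low_nondeg hL hn s₀ le_rfl y hy hy2
    have hc0 : ∀ i, conj (c i) = 0 := by
      have h4 : ∑ i, conj (c i) • v i = 0 := by
        refine Subtype.ext ?_
        rw [Submodule.coe_zero, ← hy0]
        push_cast
        rfl
      exact fun i => Fintype.linearIndependent_iff.1 v.linearIndependent _ h4 i
    apply hf0
    refine LinearMap.ext fun z => ?_
    rw [hfc, LinearMap.zero_apply]
    refine Finset.sum_eq_zero fun i _ => ?_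
    have h5 := hc0 i
    rw [map_eq_zero] at h5
    rw [h5, mul_zero]
  have h1 := LinearMap.finrank_range_add_finrank_ker T
  rw [hsurj, finrank_top, Module.finrank_fin_fun] at h1
  refine ⟨(LinearMap.ker T).map V.subtype, ?_, ?_⟩
  · rw [Submodule.finrank_map_subtype_eq]
    show finrank ℂ (LinearMap.ker T) + finrank ℂ Z = finrank ℂ V
    omega
  · intro x hx h
    refine ⟨⟨x, hx⟩, ?_, rfl⟩
    rw [SetLike.mem_coe, LinearMap.mem_ker]
    funext i
    rw [hT]
    exact h _ (v i).2

theorem indep_col (a b : ℕ) : iSupIndep fun s : ℕ => X.piece (a + s) (b + s) := by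
  have h2 := X.internal.submodule_iSupIndep
  exact h2.comp (f := fun s : ℕ => (a + s, b + s)) (fun s s' h => by
    have h3 := congrArg Prod.fst h
    simp only at h3
    omega)

theorem disj_mid {a b s₀ m : ℕ} {M : Submodule ℂ X.H} (hM : M ≤ X.piece (a + s₀) (b + s₀)) :
    X.low (a + (s₀ + 1)) (b + (s₀ + 1)) m ⊓ M = ⊥ := by
  have h1 := indep_col (X := X) a b s₀
  have h2 : X.low (a + (s₀ + 1)) (b + (s₀ + 1)) m ≤
      ⨆ (j : ℕ) (_ : j ≠ s₀), X.piece (a + j) (b + j) := by
    refine low_le fun s _ x hx => ?_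
    rw [show a + (s₀ + 1) + s = a + (s₀ + 1 + s) by ring,
      show b + (s₀ + 1) + s = b + (s₀ + 1 + s) by ring] at hx
    exact (le_iSup₂_of_le (f := fun j (_ : j ≠ s₀) => X.piece (a + j) (b + j)) (s₀ + 1 + s)
      (by omega) le_rfl) hx
  exact ((h1.mono_right h2).mono_left hM).symm.eq_bot

theorem finrank_up {a b s₀ m : ℕ} {M : Submodule ℂ X.H} (hM : M ≤ X.piece (a + s₀) (b + s₀)) :
    finrank ℂ (X.low (a + (s₀ + 1)) (b + (s₀ + 1)) m ⊔ M : Submodule ℂ X.H) =
      finrank ℂ (X.low (a + (s₀ + 1)) (b + (s₀ + 1)) m) + finrank ℂ M := by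
  have h1 := Submodule.finrank_sup_add_finrank_inf_eq (X.low (a + (s₀ + 1)) (b + (s₀ + 1)) m) M
  rw [disj_mid hM, finrank_bot, add_zero] at h1
  exact h1

theorem low_add (X : Twisted n) (a b r : ℕ) : ∀ m : ℕ,
    finrank ℂ (X.low a b (r + m)) = finrank ℂ (X.low a b r) + finrank ℂ (X.low (a + r) (b + r) m) := by
  intro m
  rw [X.finrank_low, X.finrank_low, X.finrank_low, Finset.sum_range_add]
  congr 1
  refine Finset.sum_congr rfl fun s _ => ?_
  rw [add_assoc, add_assoc]

/-- The form on the upper part and a subspace of the middle piece. -/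
theorem bf_sup (hL : IsCupProduct X.toGradedForm L) {a b s₀ κ : ℕ}
    (hn : a + b + 2 * s₀ + κ = n) {f m : X.H}
    (hf1 : f ∈ X.low (a + (s₀ + 1)) (b + (s₀ + 1)) (s₀ + κ))
    (hmm : m ∈ X.piece (a + s₀) (b + s₀)) :
    bf X L κ (f + m) (f + m) = bf X L κ m m ∧ bf X L κ (f + m) m = bf X L κ m m ∧
      ∀ y, y ∈ X.low a b s₀ → bf X L κ (f + m) y = bf X L κ f y := by
  have hmF := mem_low_one hmm
  have h1 : hf X L κ f f = 0 := hf_low_zero hL (fun s _ s' _ => by omega) hf1 hf1
  have h2 : hf X L κ f m = 0 := hf_low_zero hL (fun s _ s' _ => by omega) hf1 hmF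
  have h3 : hf X L κ m f = 0 := hf_low_zero hL (fun s _ s' _ => by omega) hmF hf1
  refine ⟨?_, ?_, fun y hy => ?_⟩
  · unfold bf
    simp only [hf_add_left, hf_add_right, h1, h2, h3, zero_add, add_zero]
  · unfold bf
    simp only [hf_add_left, hf_add_right, h2, h3, zero_add]
  · have h4 : hf X L κ m y = 0 := hf_low_zero hL (fun s _ s' _ => by omega) hmF hy
    have h5 : hf X L κ y m = 0 := hf_low_zero hL (fun s _ s' _ => by omega) hy hmF
    unfold bf
    simp only [hf_add_left, hf_add_right, h4, h5, add_zero]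

variable {Y : Twisted n} {L' : Module.End ℂ Y.H}

/-- The transform is compatible with the operators `L` and `L'`. -/
def Intertwines (Φ : Transform X Y) (L : Module.End ℂ X.H) (L' : Module.End ℂ Y.H) : Prop :=
  ∀ x, Φ.map (L x) = L' (Φ.map x)

theorem hf_iso {Φ : Transform X Y} (h : Intertwines Φ L L') (k : ℕ) (x y : X.H) :
    hf Y L' k (Φ.map x) (Φ.map y) = hf X L k x y := by
  have hp : ∀ k y, Φ.map ((L ^ k) y) = (L' ^ k) (Φ.map y) := by
    intro k
    induction k with
    | zero => intro y; rfl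
    | succ k ih =>
      intro y
      rw [pow_succ', Module.End.mul_apply, h, ih, pow_succ', Module.End.mul_apply]
  unfold hf
  rw [← hp, Φ.map_form']

theorem bf_iso {Φ : Transform X Y} (h : Intertwines Φ L L') (k : ℕ) (x y : X.H) :
    bf Y L' k (Φ.map x) (Φ.map y) = bf X L k x y := by
  unfold bf
  rw [hf_iso h, hf_iso h]

/-- **The basic inequality.** -/
theorem basic (hX : DefectTwo X L) (hY : DefectTwo Y L') (Φ : Transform X Y)
    (hΦ : Intertwines Φ L L') {a b s₀ κ : ℕ} (hab : a = 0 ∨ b = 0)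
    (hn : a + b + 2 * s₀ + κ = n) :
    (finrank ℂ (X.low (a + (s₀ + 1)) (b + (s₀ + 1)) (s₀ + κ)) : ℤ) + alt X (a + s₀) (b + s₀) ≤
      finrank ℂ (Y.low (a + (s₀ + 1)) (b + (s₀ + 1)) (s₀ + κ)) + alt Y (a + s₀) (b + s₀) := by
  obtain ⟨-, M', -, hM', -, pos, -, hA, -⟩ := neg_dim hX (a + s₀) (b + s₀) κ (by omega)
  obtain ⟨N, N', hN, hN', neg, -, hsum, hA', -⟩ := neg_dim hY (a + s₀) (b + s₀) κ (by omega)
  obtain ⟨K, hK, hK2⟩ := exists_ker hY hn
  have hH := isHerm (X := Y) (w := L') (k := κ) (sg (a + s₀) (b + s₀))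
  have hmid : ∀ Z : Twisted n, Z.piece (a + s₀) (b + s₀) ≤ Z.column a b := by
    intro Z x hx
    have h1 := Z.piece_le_column _ _ hx
    rwa [Z.column_shift (a := a) (b := b) (by omega)] at h1
  have h1 := semi_sub hH (Y.column a b)
    (Submodule.map (Φ.map : X.H →ₗ[ℂ] Y.H)
      (X.low (a + (s₀ + 1)) (b + (s₀ + 1)) (s₀ + κ) ⊔ M'))
    (Y.low (a + (s₀ + 1)) (b + (s₀ + 1)) (s₀ + κ) ⊔ N) K
    (by
      rintro _ ⟨x, hx, rfl⟩
      exact Φ.map_column ((sup_le low_le_column (hM'.trans (hmid X))) hx))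
    (sup_le low_le_column (hN.trans (hmid Y)))
    (by
      rintro _ ⟨x, hx, rfl⟩
      obtain ⟨f, hf1, m, hm, rfl⟩ := Submodule.mem_sup.1 hx
      show 0 ≤ sg (a + s₀) (b + s₀) * bf Y L' κ (Φ.map (f + m)) (Φ.map (f + m))
      rw [bf_iso hΦ, (bf_sup hX.cup hn hf1 (hM' hm)).1]
      exact pos m hm)
    (by
      intro x hx
      obtain ⟨f, hf1, m, hm, rfl⟩ := Submodule.mem_sup.1 hx
      rw [(bf_sup hY.cup hn hf1 (hN hm)).1]
      by_cases hm0 : m = 0
      · rw [hm0]
        exact le_of_eq (hH.zero_left 0)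
      · exact (neg m hm hm0).le)
    (by
      intro x hx hxy
      obtain ⟨f, hf1, m, hm, rfl⟩ := Submodule.mem_sup.1 hx
      have hm0 : m = 0 := by
        by_contra hm0
        have h2 := hxy m (hmid Y (hN hm))
        rw [(bf_sup hY.cup hn hf1 (hN hm)).2.1] at h2
        have h3 := neg m hm hm0
        linarith
      rw [hm0, add_zero]
      have hlc : Y.low a b s₀ ≤ Y.column a b := by
        have := low_le_column (X := Y) (a := a) (b := b) (c := 0) (t := s₀)
        simpa using this
      have h4 : ∀ y ∈ Y.low a b s₀, (hf Y L' κ f y).re = 0 := by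
        intro y hy
        have h2 := hxy y (hlc hy)
        rw [(bf_sup hY.cup hn hf1 (hN hm)).2.2 y hy] at h2
        have h3 := (mul_eq_zero.mp h2).resolve_left (sg_ne _ _)
        unfold bf at h3
        rw [hf_column_conj hY.cup hn (low_le_column hf1) (hlc hy), Complex.conj_re] at h3
        linarith
      refine hK2 f hf1 fun y hy => ?_
      have h5 := h4 (Complex.I • y) (Submodule.smul_mem _ _ hy)
      rw [hf_smul_right, Complex.conj_I] at h5
      refine Complex.ext (h4 y hy) ?_
      simp only [Complex.mul_re, Complex.neg_re, Complex.I_re, Complex.neg_im, Complex.I_im] at h5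
      simp only [Complex.zero_im]
      linarith)
  have hT : finrank ℂ (Y.column a b) = finrank ℂ (Y.low a b s₀) +
      (Y.hodgeNumber (a + s₀) (b + s₀) +
        finrank ℂ (Y.low (a + (s₀ + 1)) (b + (s₀ + 1)) (s₀ + κ))) := by
    have e1 : 2 * s₀ + κ + 1 = s₀ + (1 + (s₀ + κ)) := by ring
    rw [Y.column_eq (t := 2 * s₀ + κ) hab (by omega), e1, low_add Y, low_add Y]
    congr 2
    rw [Y.finrank_low]
    simp
  rw [LinearEquiv.finrank_map_eq, finrank_up hM', finrank_up hN, hT] at h1
  rw [← hA, ← hA']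
  omega

end Pool.Agent.R929.OD
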