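import Pool.Agent.R929.OD.Chow

/-!
# The canonical class
-/

namespace Pool.Agent.R929.OD

open Module Finset Pool.Agent.TH125.Tw Pool.Agent.R929.OC

variable {n : ℕ} {X Y : Twisted n}

theorem poly_iso (Φ : Transform X Y) (x y : X.H) :
    Transform.poly Y (Φ.map x) (Φ.map y) = Transform.poly X x y := by
  refine Polynomial.eq_of_infinite_eval_eq _ _ ?_
  refine Set.Infinite.mono (s := Set.range fun m : ℕ => (1 / 2 - m : ℂ)) ?_ ?_
  · rintro _ ⟨m, rfl⟩
    change (Transform.poly Y (Φ.map x) (Φ.map y)).eval _ = (Transform.poly X x y).eval _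
    rw [Transform.poly_eval, Transform.poly_eval, Φ.pair_nat]
  · refine Set.infinite_range_of_injective fun a b h => ?_
    simp only [sub_right_inj] at h
    exact_mod_cast h

theorem poly_coeff_one (Z : Twisted n) (hn : 1 ≤ n) (x y : Z.H) :
    (Transform.poly Z x y).coeff 1 = Z.form (Z.chern (Z.dual x)) y := by
  unfold Transform.poly
  rw [Polynomial.finsetSum_coeff, Finset.sum_eq_single 1]
  · rw [Polynomial.coeff_C_mul, Polynomial.coeff_X_pow, if_pos rfl, mul_one, Nat.factorial_one,
      Nat.cast_one, inv_one, one_mul, pow_one]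
  · intro j _ hj
    rw [Polynomial.coeff_C_mul, Polynomial.coeff_X_pow, if_neg (Ne.symm hj), mul_zero]
  · intro h
    exact absurd (mem_range.2 (by omega)) h

/-- A transform is compatible with the first Chern classes. -/
theorem intertwines_chern (Φ : Transform X Y) : Intertwines Φ X.chern Y.chern := by
  intro y
  by_cases hn : 1 ≤ n
  · have key : ∀ x : X.H, Y.form (Y.dual (Φ.map x)) (Φ.map (X.chern y)) =
        Y.form (Y.dual (Φ.map x)) (Y.chern (Φ.map y)) := by
      intro x
      rw [Φ.map_form', ← X.chern_form, ← Y.chern_form, ← poly_coeff_one X hn,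
        ← poly_coeff_one Y hn, poly_iso]
    have h1 : ∀ z : Y.H, Y.form z (Φ.map (X.chern y) - Y.chern (Φ.map y)) = 0 := by
      intro z
      obtain ⟨x, hx⟩ := Φ.map.surjective (Y.dual (Y.dual (Y.dual z)))
      have h2 := key x
      rw [hx, Y.dual4] at h2
      rw [map_sub, h2, sub_self]
    refine sub_eq_zero.1 (Y.dual_zero_of (Y.dual_zero_of (Y.form_nondeg _ fun z => ?_)))
    have h3 := h1 z
    rw [Y.form_swap'] at h3
    exact (map_eq_zero _).1 h3
  · have h0 : ∀ Z : Twisted n, Z.chern = 0 := by
      intro Z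
      have h1 := Z.chern_pow_zero
      rwa [show n + 1 = 1 by omega, pow_one] at h1
    rw [h0, h0, LinearMap.zero_apply, LinearMap.zero_apply, map_zero]

variable {D : Corr X Y}

/-- **Orlov's conjecture for canonical classes of defect at most two.** -/
theorem canonical (hK : Kunneth D) (hN : Nilpotence D) (hS : Semisimple D) (Ψ : Equivalence D)
    {s : ℤ} (hX : DefectTwo X (s • X.chern)) (hY : DefectTwo Y (s • Y.chern)) :
    MotivesIsomorphic D := by
  refine chow hK hN hS Ψ hX hY (c := s • D.chern) ?_ ?_
  · intro z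
    show D.act (s • D.chern) z = _
    rw [map_zsmul, LinearMap.smul_apply, D.chern_act]
    rfl
  · intro x
    rw [LinearMap.smul_apply, map_zsmul, intertwines_chern, LinearMap.smul_apply]

end Pool.Agent.R929.OD
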