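import Pool.Agent.R929.OD.Main
import Pool.Agent.R929.OC.Four

/-!
# Isomorphic Chow motives
-/

namespace Pool.Agent.R929.OD

open Module Finset Pool.Agent.TH125.Tw Pool.Agent.R929.OC

variable {n : ℕ} {X Y : Twisted n} {f : Module.End ℂ X.H} {g : Module.End ℂ Y.H}
  {L : Module.End ℂ X.H} {L' : Module.End ℂ Y.H}

theorem sub_cup (h : Compat X f) {w : Module.End ℂ X.H} (hw : IsCupProduct X.toGradedForm w)
    (hc : ∀ x, f (w x) = w (f x)) : IsCupProduct (sub h).toGradedForm (restr f w hc) where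
  mem := fun {p q x} hx => hw.mem (p := p) (q := q) (x := (show X.H from
    (show LinearMap.range f from x))) hx
  form_eq := fun (x y : LinearMap.range f) => hw.form_eq (x : X.H) (y : X.H)

theorem pow_restr_zero {w : Module.End ℂ X.H} (hc : ∀ x, f (w x) = w (f x)) {k : ℕ}
    (x : LinearMap.range f) (h0 : (restr f w hc ^ k) x = 0) : (w ^ k) (x : X.H) = 0 := by
  rw [← restr_pow f w hc, h0]
  rfl

theorem sub_hl' {w : Module.End ℂ X.H} (hw : HardLefschetz X.toGradedForm n w)
    (hc : ∀ x, f (w x) = w (f x)) {p q : ℕ} (x : LinearMap.range f)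
    (hx : (x : X.H) ∈ X.piece p q) (hpq : p + q ≤ n)
    (h0 : (restr f w hc ^ (n - (p + q))) x = 0) : x = 0 :=
  Subtype.ext (hw hx hpq (pow_restr_zero hc x h0))

theorem sub_hr' {w : Module.End ℂ X.H} (hw : HodgeRiemann X.toGradedForm n w)
    (hc : ∀ x, f (w x) = w (f x)) {p q : ℕ} (x : LinearMap.range f)
    (hx : (x : X.H) ∈ X.piece p q) (hpq : p + q ≤ n)
    (h0 : (restr f w hc ^ (n - (p + q) + 1)) x = 0) (hx0 : x ≠ 0) :
    0 < (Complex.I ^ p * (-Complex.I) ^ q * (-1) ^ ((p + q) * (p + q - 1) / 2) *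
      X.form (((restr f w hc ^ (n - (p + q))) x : LinearMap.range f) : X.H) (x : X.H)).re := by
  have h2 := hw hx hpq (pow_restr_zero hc x h0) (fun h3 => hx0 (Subtype.ext h3))
  rw [restr_pow]
  exact h2

theorem sub_kahler (h : Compat X f) {w : Module.End ℂ X.H} (hw : IsKahler X w)
    (hc : ∀ x, f (w x) = w (f x)) : IsKahler (sub h) (restr f w hc) where
  cup := sub_cup h hw.cup hc
  hl := fun {_ _ x} hx hpq h0 => sub_hl' hw.hl hc x hx hpq h0
  hr := fun {_ _ x} hx hpq h0 hx0 => sub_hr' hw.hr hc x hx hpq h0 hx0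

theorem sub_rel' (h : Compat X f) (hL : DefectTwo X L) (hc : ∀ x, f (L x) = L (f x))
    {p q k : ℕ} (hk : p + q + k + 2 = n) (x : LinearMap.range f)
    (hx : (x : X.H) ∈ X.piece p q) (hx0 : x ≠ 0) (h0 : (restr f L hc ^ (k + 1)) x = 0) :
    0 < (Complex.I ^ p * (-Complex.I) ^ q * (-1) ^ ((p + q) * (p + q - 1) / 2) *
      X.form (((restr f L hc ^ k) (restr f X.lef h.lef (restr f X.lef h.lef x)) :
        LinearMap.range f) : X.H) (x : X.H)).re := by
  have h2 := hL.rel p q k hk (x : X.H) hx (fun h3 => hx0 (Subtype.ext h3))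
    (pow_restr_zero hc x h0)
  rw [restr_pow, restr_coe, restr_coe]
  exact h2

theorem sub_defect (h : Compat X f) (hL : DefectTwo X L) (hc : ∀ x, f (L x) = L (f x)) :
    DefectTwo (sub h) (restr f L hc) where
  cup := sub_cup h hL.cup hc
  comm := fun (x : LinearMap.range f) => Subtype.ext (hL.comm (x : X.H))
  nef := by
    intro t ht
    have hc' : ∀ x, f ((L + (t : ℂ) • X.lef) x) = (L + (t : ℂ) • X.lef) (f x) := by
      intro x
      rw [LinearMap.add_apply, LinearMap.smul_apply, map_add, map_smul, hc, h.lef]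
      rfl
    exact sub_kahler h (hL.nef t ht) hc'
  inj := fun p q k hk (x : LinearMap.range f) hx h0 =>
    Subtype.ext (hL.inj p q k hk (x : X.H) hx (pow_restr_zero hc x h0))
  rel := fun _ _ _ hk (x : LinearMap.range f) hx hx0 h0 => sub_rel' h hL hc hk x hx hx0 h0

variable {D : Corr X Y} {π : ℕ → D.C} {e : Module.End ℂ (X.H × Y.H)}

theorem central_fst (he : IsCentral D e) {c : D.C} (hc : ∀ z, D.on c z = (L z.1, L' z.2))
    (x : X.H) : fst e (L x) = L (fst e x) := by
  have h := he.comm c (x, 0)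
  have h1 : D.act c (x, 0) = (L x, L' 0) := hc (x, 0)
  have h2 : D.act c (fst e x, 0) = (L (fst e x), L' 0) := hc (fst e x, 0)
  rw [h1, he.inl, h2, map_zero, he.inl] at h
  exact congrArg Prod.fst h

theorem central_snd (he : IsCentral D e) {c : D.C} (hc : ∀ z, D.on c z = (L z.1, L' z.2))
    (y : Y.H) : snd e (L' y) = L' (snd e y) := by
  have h := he.comm c (0, y)
  have h1 : D.act c (0, y) = (L 0, L' y) := hc (0, y)
  have h2 : D.act c (0, snd e y) = (L 0, L' (snd e y)) := hc (0, snd e y)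
  rw [h1, he.inr, h2, map_zero, he.inr] at h
  exact congrArg Prod.snd h

/-- **Orlov's conjecture for equivalences which commute with a nef class of defect at most
two.** -/
theorem chow (hK : Kunneth D) (hN : Nilpotence D) (hS : Semisimple D) (Ψ : Equivalence D)
    (hX : DefectTwo X L) (hY : DefectTwo Y L') {c : D.C} (hc : ∀ z, D.on c z = (L z.1, L' z.2))
    (hΨ : Intertwines Ψ.Φ L L') : MotivesIsomorphic D := by
  obtain ⟨π, hπ⟩ := exists_kun D hK
  refine motives_iso hπ hN hS fun e he p q => ?_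
  refine main (sub_defect (he.compat_fst hπ) hX (central_fst he hc))
    (sub_defect (he.compat_snd hπ) hY (central_snd he hc))
    (subTransform (he.compat_fst hπ) (he.compat_snd hπ) Ψ.Φ (commutes he Ψ)) ?_ p q
  intro x
  exact Subtype.ext (hΨ (show X.H from (show LinearMap.range (fst e) from x)))

end Pool.Agent.R929.OD
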