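import Pool.Agent.R929.OC.Trans
import Pool.Agent.R929.DH.Lin

/-!
# The hermitian forms of an operator of type (1, 1)
-/

open scoped ComplexConjugate

namespace Pool.Agent.R929.OD

open Module Finset Pool.Agent.TH125.Tw Pool.Agent.R929.DH

variable {n : ℕ} (X : Twisted n)

/-- The form `∫ x^∨ w^k bar y`. -/
noncomputable def hf (w : Module.End ℂ X.H) (k : ℕ) (x y : X.H) : ℂ :=
  X.form (X.dual x) ((w ^ k) y)

/-- Its real part, symmetrised. -/
noncomputable def bf (w : Module.End ℂ X.H) (k : ℕ) (x y : X.H) : ℝ :=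
  (hf X w k x y).re + (hf X w k y x).re

variable {X} {w : Module.End ℂ X.H} {k : ℕ}

theorem hf_add_left (x y z : X.H) : hf X w k (x + y) z = hf X w k x z + hf X w k y z := by
  unfold hf
  rw [map_add, map_add, LinearMap.add_apply]

theorem hf_add_right (x y z : X.H) : hf X w k x (y + z) = hf X w k x y + hf X w k x z := by
  unfold hf
  rw [map_add, map_add]

theorem hf_smul_left (a : ℂ) (x z : X.H) : hf X w k (a • x) z = a * hf X w k x z := by
  unfold hf
  rw [map_smul, map_smul, LinearMap.smul_apply, smul_eq_mul]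

theorem hf_smul_right (a : ℂ) (x z : X.H) : hf X w k x (a • z) = conj a * hf X w k x z := by
  unfold hf
  rw [map_smul, LinearMap.map_smulₛₗ, smul_eq_mul]

theorem isHerm (e : ℝ) : IsHerm (fun x y : X.H => e * bf X w k x y) where
  add x y z := by
    simp only [bf, hf_add_left, hf_add_right, Complex.add_re]
    ring
  smul r x z := by
    simp only [bf, hf_smul_left, hf_smul_right, Complex.conj_ofReal, Complex.re_ofReal_mul]
    ring
  symm x y := by
    simp only [bf]
    ring
  inv x y := by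
    have h1 : ∀ x y : X.H, hf X w k (Complex.I • x) (Complex.I • y) = hf X w k x y := by
      intro x y
      rw [hf_smul_left, hf_smul_right, ← mul_assoc, Complex.conj_I, mul_neg, Complex.I_mul_I]
      ring
    simp only [bf, h1]

theorem pow_mem {w : Module.End ℂ X.H} (hw : IsCupProduct X.toGradedForm w) {p q : ℕ} {x : X.H}
    (hx : x ∈ X.piece p q) (k : ℕ) : (w ^ k) x ∈ X.piece (p + k) (q + k) := by
  induction k with
  | zero => simpa using hx
  | succ k ih =>
    rw [pow_succ', Module.End.mul_apply]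
    exact hw.mem ih

theorem pow_form {w : Module.End ℂ X.H} (hw : IsCupProduct X.toGradedForm w) (k : ℕ)
    (x y : X.H) : X.form ((w ^ k) x) y = X.form x ((w ^ k) y) := by
  induction k generalizing x y with
  | zero => rfl
  | succ k ih =>
    rw [pow_succ', Module.End.mul_apply, hw.form_eq, ih, ← Module.End.mul_apply, ← pow_succ]
    rw [pow_succ']

theorem dual_cup {w : Module.End ℂ X.H} (hw : IsCupProduct X.toGradedForm w) (x : X.H) :
    X.dual (w x) = -w (X.dual x) := by
  refine X.ind (P := fun x => X.dual (w x) = -w (X.dual x)) ?_ ?_ ?_ x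
  · simp
  · intro a b ha hb
    simp only [map_add, ha, hb]
    abel
  · intro p q x hx
    rw [X.dual_apply (hw.mem hx), X.dual_apply hx, map_smul]
    have e : Complex.I ^ (p + 1 + (q + 1)) = -(Complex.I ^ (p + q)) := by
      rw [show p + 1 + (q + 1) = 2 + (p + q) by ring, pow_add, Complex.I_sq]
      ring
    rw [e, neg_smul]

theorem hf_mul_left {v : Module.End ℂ X.H} (hv : IsCupProduct X.toGradedForm v) (x y : X.H) :
    hf X w k (v x) y = -X.form (X.dual x) (v ((w ^ k) y)) := by
  unfold hf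
  rw [dual_cup hv, map_neg, LinearMap.neg_apply, hv.form_eq]

theorem hf_succ_left (hw : IsCupProduct X.toGradedForm w) (x y : X.H) :
    hf X w k (w x) y = -hf X w (k + 1) x y := by
  rw [hf_mul_left hw]
  unfold hf
  rw [pow_succ', Module.End.mul_apply]

theorem hf_succ_right (x y : X.H) : hf X w k x (w y) = hf X w (k + 1) x y := by
  unfold hf
  rw [pow_succ, Module.End.mul_apply]

theorem bf_succ (hw : IsCupProduct X.toGradedForm w) (x y : X.H) :
    bf X w k (w x) (w y) = -bf X w (k + 2) x y := by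
  unfold bf
  rw [hf_succ_left hw, hf_succ_left hw, hf_succ_right, hf_succ_right]
  simp only [Complex.neg_re]
  ring

theorem hf_hom {p q : ℕ} {x : X.H} (hx : x ∈ X.piece p q) (y : X.H) :
    hf X w k x y = Complex.I ^ (p + q) * X.form x ((w ^ k) y) := by
  unfold hf
  rw [X.dual_apply hx, map_smul, LinearMap.smul_apply, smul_eq_mul]

theorem hf_zero (hw : IsCupProduct X.toGradedForm w) {p q p' q' : ℕ} {x y : X.H}
    (hx : x ∈ X.piece p q) (hy : y ∈ X.piece p' q') (h : p + q' + k ≠ n) :
    hf X w k x y = 0 := by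
  rw [hf_hom hx, X.form_zero hx (pow_mem hw hy k), mul_zero]
  intro h'
  have h1 := congrArg Prod.fst h'
  simp only at h1
  omega

/-- Hermitian symmetry. -/
theorem hf_conj (hw : IsCupProduct X.toGradedForm w) {p q p' q' : ℕ} {x y : X.H}
    (hx : x ∈ X.piece p q) (hy : y ∈ X.piece p' q') (h1 : p + q' + k = n)
    (h2 : q + p' + k = n) (h3 : Even (p + q + k + n)) :
    hf X w k y x = conj (hf X w k x y) := by
  rw [hf_hom hy, hf_hom hx, map_mul, map_pow, Complex.conj_I]
  have e1 : X.form y ((w ^ k) x) =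
      (-1) ^ ((p + q) * (p' + q')) * conj (X.form x ((w ^ k) y)) := by
    have h4 := X.form_swap (pow_mem hw hx k) hy
    rw [h4, pow_form hw]
    congr 1
    have h5 : (p + k + (q + k)) * (p' + q') = (p + q) * (p' + q') + 2 * (k * (p' + q')) := by ring
    rw [h5, pow_add, pow_mul (-1 : ℂ) 2, neg_one_sq, one_pow, mul_one]
  rw [e1]
  have h6 : Complex.I ^ (p' + q') * (-1 : ℂ) ^ ((p + q) * (p' + q')) = (-Complex.I) ^ (p + q) := by
    have hI : ((-Complex.I) ^ (p + q)) * Complex.I ^ (p + q) = 1 := by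
      rw [← mul_pow]
      simp
    have hE : Complex.I ^ (p' + q') * Complex.I ^ (p + q) = (-1) ^ (p + q) := by
      obtain ⟨r, hr⟩ := h3
      have h7 : p' + q' + (p + q) = 2 * (n - k) := by omega
      rw [← pow_add, h7, pow_mul, Complex.I_sq]
      rcases Nat.even_or_odd (p + q) with h8 | h8
      · have h9 : Even (n - k) := by
          obtain ⟨u, hu⟩ := h8
          exact ⟨r - k - u, by omega⟩
        rw [h8.neg_one_pow, h9.neg_one_pow]
      · have h9 : Odd (n - k) := by
          obtain ⟨u, hu⟩ := h8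
          exact ⟨r - k - u - 1, by omega⟩
        rw [h8.neg_one_pow, h9.neg_one_pow]
    have hP : (-1 : ℂ) ^ ((p + q) * (p' + q')) = (-1) ^ (p + q) := by
      rcases Nat.even_or_odd (p + q) with h8 | h8
      · rw [h8.neg_one_pow, (h8.mul_right _).neg_one_pow]
      · have h9 : Odd (p' + q') := by
          obtain ⟨u, hu⟩ := h8
          exact ⟨n - k - u - 1, by omega⟩
        rw [h8.neg_one_pow, (h8.mul h9).neg_one_pow]
    have hQ : (-1 : ℂ) ^ (p + q) * (-1) ^ (p + q) = 1 := by
      rw [← mul_pow]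
      norm_num
    rw [hP]
    linear_combination (-(Complex.I ^ (p' + q') * (-1 : ℂ) ^ (p + q))) * hI +
      ((-Complex.I) ^ (p + q) * (-1 : ℂ) ^ (p + q)) * hE + ((-Complex.I) ^ (p + q)) * hQ
  rw [← mul_assoc, h6]

theorem bf_self (x : X.H) : bf X w k x x = 2 * (hf X w k x x).re := by
  unfold bf
  ring

/-- The sign with which the hermitian form is positive on primitive classes. -/
noncomputable def sg (p q : ℕ) : ℝ := (-1 : ℝ) ^ q * (-1 : ℝ) ^ ((p + q) * (p + q - 1) / 2)

theorem sg_sq (p q : ℕ) : sg p q * sg p q = 1 := by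
  unfold sg
  have h : ∀ m : ℕ, (-1 : ℝ) ^ m * (-1 : ℝ) ^ m = 1 := fun m => by
    rw [← mul_pow]; norm_num
  calc _ = ((-1 : ℝ) ^ q * (-1 : ℝ) ^ q) * ((-1 : ℝ) ^ ((p + q) * (p + q - 1) / 2) *
      (-1 : ℝ) ^ ((p + q) * (p + q - 1) / 2)) := by ring
    _ = 1 := by rw [h, h, one_mul]

theorem sg_ne (p q : ℕ) : sg p q ≠ 0 := fun h => by
  have := sg_sq p q
  rw [h] at this
  norm_num at this

theorem tri_succ (s : ℕ) : (s + 2) * (s + 2 - 1) / 2 = s * (s - 1) / 2 + (2 * s + 1) := by
  have h1 : (s + 2) * (s + 2 - 1) = s * (s - 1) + (2 * s + 1) * 2 := by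
    rcases s with _ | s
    · rfl
    · simp only [Nat.add_sub_cancel]
      have : s + 1 + 2 - 1 = s + 2 := by omega
      rw [this]
      ring
  rw [h1, Nat.add_mul_div_right _ _ (by norm_num)]

theorem sg_succ (p q : ℕ) : sg (p + 1) (q + 1) = sg p q := by
  unfold sg
  have h1 : p + 1 + (q + 1) = p + q + 2 := by ring
  rw [h1, tri_succ, pow_add (-1 : ℝ) ((p + q) * (p + q - 1) / 2), pow_succ (-1 : ℝ) q,
    pow_succ (-1 : ℝ) (2 * (p + q)), pow_mul]
  norm_num

/-- The Hodge-Riemann expression. -/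
theorem hr_eq (hw : IsCupProduct X.toGradedForm w) {p q : ℕ} {x : X.H}
    (hx : x ∈ X.piece p q) (y : X.H) :
    Complex.I ^ p * (-Complex.I) ^ q * (-1) ^ ((p + q) * (p + q - 1) / 2) *
      X.form ((w ^ k) x) y = (sg p q : ℂ) * hf X w k x y := by
  rw [hf_hom hx, pow_form hw]
  unfold sg
  push_cast
  rw [neg_pow Complex.I q, pow_add]
  ring

end Pool.Agent.R929.OD
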