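import Pool.Agent.R929.OD.Form
import Pool.Agent.W539.DI.HR

/-!
# The positive part of the form of a Kähler class
-/

open scoped ComplexConjugate

namespace Pool.Agent.R929.OD

open Module Finset Pool.Agent.TH125.Tw Pool.Agent.R929.DH Pool.Agent.W539.DI

variable {n : ℕ}

/-- The operator `w` has the properties of the product with a Kähler class: it is of type `(1, 1)`
and self-adjoint and satisfies the hard Lefschetz theorem and the Hodge-Riemann relations. -/
structure IsKahler (X : Twisted n) (w : Module.End ℂ X.H) : Prop where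
  cup : IsCupProduct X.toGradedForm w
  hl : HardLefschetz X.toGradedForm n w
  hr : HodgeRiemann X.toGradedForm n w

/-- The alternating sum `h^{p,q} - h^{p-1,q-1} + h^{p-2,q-2} - ...`. -/
noncomputable def alt (X : Twisted n) : ℕ → ℕ → ℤ
  | 0, q => X.hodgeNumber 0 q
  | p + 1, 0 => X.hodgeNumber (p + 1) 0
  | p + 1, q + 1 => X.hodgeNumber (p + 1) (q + 1) - alt X p q

variable {X : Twisted n} {w : Module.End ℂ X.H}

theorem IsKahler.inj (h : IsKahler X w) {p q k : ℕ} (hk : p + q + k = n) {x : X.H}
    (hx : x ∈ X.piece p q) (h0 : (w ^ k) x = 0) : x = 0 :=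
  h.hl hx (by omega) (by rwa [show n - (p + q) = k by omega])

theorem IsKahler.pos (h : IsKahler X w) {p q k : ℕ} (hk : p + q + k = n) {x : X.H}
    (hx : x ∈ X.piece p q) (hx0 : x ≠ 0) (h0 : (w ^ (k + 1)) x = 0) :
    0 < sg p q * bf X w k x x := by
  have h1 := h.hr hx (by omega) (by rwa [show n - (p + q) + 1 = k + 1 by omega]) hx0
  rw [show n - (p + q) = k by omega, hr_eq h.cup hx, Complex.re_ofReal_mul] at h1
  rw [bf_self]
  linarith

/-- The primitive classes. -/
def prim (w : Module.End ℂ X.H) (p q k : ℕ) : Submodule ℂ X.H :=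
  X.piece p q ⊓ LinearMap.ker (w ^ (k + 1))

theorem prim_dim (h : IsKahler X w) {p q k : ℕ} (hk : p + 1 + (q + 1) + k = n) :
    finrank ℂ (prim w (p + 1) (q + 1) k) + X.hodgeNumber p q = X.hodgeNumber (p + 1) (q + 1) := by
  let T : X.piece (p + 1) (q + 1) →ₗ[ℂ] X.piece (p + 1 + (k + 1)) (q + 1 + (k + 1)) :=
    (w ^ (k + 1)).restrict fun x hx => pow_mem h.cup hx (k + 1)
  have hT : ∀ x, ((T x : X.piece (p + 1 + (k + 1)) (q + 1 + (k + 1))) : X.H) =
    (w ^ (k + 1)) x := fun x => rfl
  let U : X.piece p q →ₗ[ℂ] X.piece (p + (k + 2)) (q + (k + 2)) :=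
    (w ^ (k + 2)).restrict fun x hx => pow_mem h.cup hx (k + 2)
  have hU : ∀ x, ((U x : X.piece (p + (k + 2)) (q + (k + 2))) : X.H) =
    (w ^ (k + 2)) x := fun x => rfl
  have hUinj : Function.Injective U := by
    rw [injective_iff_map_eq_zero]
    intro x hx
    have h1 : (w ^ (k + 2)) (x : X.H) = 0 := by rw [← hU, hx]; rfl
    exact Subtype.ext (h.inj (k := k + 2) (by omega) x.2 h1)
  have hd : finrank ℂ (X.piece p q) = finrank ℂ (X.piece (p + (k + 2)) (q + (k + 2))) :=
    X.dim_eq (p := p) (q := q) (p' := p + (k + 2)) (q' := q + (k + 2)) (by omega) (by omega)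
  have hUs := (LinearMap.injective_iff_surjective_of_finrank_eq_finrank hd).1 hUinj
  have hTs : Function.Surjective T := by
    rintro ⟨y, hy⟩
    have e1 : p + 1 + (k + 1) = p + (k + 2) := by ring
    have e2 : q + 1 + (k + 1) = q + (k + 2) := by ring
    have hy' : y ∈ X.piece (p + (k + 2)) (q + (k + 2)) := by rw [← e1, ← e2]; exact hy
    obtain ⟨z, hz⟩ := hUs ⟨y, hy'⟩
    refine ⟨⟨w z, h.cup.mem z.2⟩, Subtype.ext ?_⟩
    rw [hT]
    have h1 : (w ^ (k + 2)) (z : X.H) = y := by rw [← hU, hz]
    show (w ^ (k + 1)) (w z) = y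
    rw [← h1, pow_succ w (k + 1), Module.End.mul_apply]
  have h1 := LinearMap.finrank_range_add_finrank_ker T
  rw [LinearMap.range_eq_top.2 hTs, finrank_top] at h1
  have h2 : finrank ℂ (LinearMap.ker T) = finrank ℂ (prim w (p + 1) (q + 1) k) := by
    have e : prim w (p + 1) (q + 1) k =
        (LinearMap.ker T).map (X.piece (p + 1) (q + 1)).subtype := by
      ext x
      constructor
      · rintro ⟨hx1, hx2⟩
        exact ⟨⟨x, hx1⟩, Subtype.ext hx2, rfl⟩
      · rintro ⟨⟨x, hx1⟩, hx2, rfl⟩
        exact ⟨hx1, congrArg Subtype.val hx2⟩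
    rw [e, Submodule.finrank_map_subtype_eq]
  have h3 : finrank ℂ (X.piece (p + 1 + (k + 1)) (q + 1 + (k + 1))) = X.hodgeNumber p q :=
    (X.dim_eq (p := p) (q := q) (p' := p + 1 + (k + 1)) (q' := q + 1 + (k + 1))
      (by omega) (by omega)).symm
  unfold Twisted.hodgeNumber at *
  omega

/-- Vectors killed by `w ^ (k + 1)` are orthogonal to the image of `w`. -/
theorem bf_prim (hw : IsCupProduct X.toGradedForm w) {k : ℕ} {x : X.H}
    (hx : (w ^ (k + 1)) x = 0) (y : X.H) : bf X w k x (w y) = 0 ∧ bf X w k (w y) x = 0 := by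
  have hd : ∀ j, X.dual ((w ^ j) x) = 0 → (w ^ j) (X.dual x) = 0 := by
    intro j hj
    have : ∀ j, ∀ x, X.dual ((w ^ j) x) = (-1 : ℂ) ^ j • (w ^ j) (X.dual x) := by
      intro j
      induction j with
      | zero => intro x; simp
      | succ j ih =>
        intro x
        rw [pow_succ', Module.End.mul_apply, dual_cup hw, ih, map_smul, Module.End.mul_apply,
          pow_succ (-1 : ℂ), mul_smul, ← smul_neg]
        congr 1
        simp
    rw [this] at hj
    exact (smul_eq_zero.1 hj).resolve_left (pow_ne_zero _ (by norm_num))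
  have h1 : (w ^ (k + 1)) (X.dual x) = 0 := hd _ (by rw [hx, map_zero])
  have h2 : hf X w k x (w y) = 0 := by
    rw [hf_succ_right]
    unfold hf
    rw [← pow_form hw, h1, map_zero, LinearMap.zero_apply]
  have h3 : hf X w k (w y) x = 0 := by
    rw [hf_succ_left hw]
    unfold hf
    rw [hx, map_zero, neg_zero]
  unfold bf
  rw [h2, h3]
  simp

theorem kahler_dec (h : IsKahler X w) : ∀ (p q k : ℕ), p + q + k = n →
    ∃ M N : Submodule ℂ X.H, M ≤ X.piece p q ∧ N ≤ X.piece p q ∧
      (∀ x ∈ M, x ≠ 0 → 0 < sg p q * bf X w k x x) ∧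
      (∀ x ∈ N, x ≠ 0 → sg p q * bf X w k x x < 0) ∧
      (finrank ℂ M : ℤ) = alt X p q ∧ finrank ℂ M + finrank ℂ N = X.hodgeNumber p q := by
  intro p
  induction p with
  | zero =>
    intro q k hk
    refine ⟨X.piece 0 q, ⊥, le_rfl, bot_le, ?_, ?_, rfl, ?_⟩
    · intro x hx hx0
      refine h.pos hk hx hx0 ?_
      exact X.piece_large (p := 0 + (k + 1)) (q := q + (k + 1)) (by omega) (pow_mem h.cup hx _)
    · intro x hx hx0
      exact absurd ((Submodule.mem_bot ℂ).1 hx) hx0
    · rw [finrank_bot, add_zero]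
      rfl
  | succ p ih =>
    intro q k hk
    rcases q with _ | q
    · refine ⟨X.piece (p + 1) 0, ⊥, le_rfl, bot_le, ?_, ?_, rfl, ?_⟩
      · intro x hx hx0
        refine h.pos hk hx hx0 ?_
        exact X.piece_large (p := p + 1 + (k + 1)) (q := 0 + (k + 1)) (by omega)
          (pow_mem h.cup hx _)
      · intro x hx hx0
        exact absurd ((Submodule.mem_bot ℂ).1 hx) hx0
      · rw [finrank_bot, add_zero]
        rfl
    · obtain ⟨M, N, hM, hN, hMp, hNn, hMd, hMN⟩ := ih q (k + 2) (by omega)
      have hH := isHerm (X := X) (w := w) (k := k) (sg (p + 1) (q + 1))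
      have hwinj : ∀ y ∈ X.piece p q, w y = 0 → y = 0 := by
        intro y hy h0
        refine h.inj (k := k + 2) (by omega) hy ?_
        rw [pow_succ w (k + 1), Module.End.mul_apply, h0, map_zero]
      have hdis : prim w (p + 1) (q + 1) k ⊓ N.map w = ⊥ := by
        rw [eq_bot_iff]
        rintro _ ⟨⟨-, hx2⟩, ⟨y, hy, rfl⟩⟩
        have h1 : (w ^ (k + 2)) y = 0 := by
          rw [pow_succ w (k + 1), Module.End.mul_apply]
          exact hx2
        rw [h.inj (k := k + 2) (by omega) (hN hy) h1, map_zero]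
        exact Submodule.zero_mem _
      have hdN : finrank ℂ (N.map w) = finrank ℂ N :=
        finrank_map_of_inj w N fun y hy h0 => hwinj y (hN hy) h0
      have hdM : finrank ℂ (M.map w) = finrank ℂ M :=
        finrank_map_of_inj w M fun y hy h0 => hwinj y (hM hy) h0
      have hsup := Submodule.finrank_sup_add_finrank_inf_eq (prim w (p + 1) (q + 1) k) (N.map w)
      rw [hdis, finrank_bot, add_zero, hdN] at hsup
      have hpd := prim_dim h hk
      refine ⟨prim w (p + 1) (q + 1) k ⊔ N.map w, M.map w, ?_, ?_, ?_, ?_, ?_, ?_⟩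
      · refine sup_le inf_le_left ?_
        rintro _ ⟨y, hy, rfl⟩
        exact h.cup.mem (hN hy)
      · rintro _ ⟨y, hy, rfl⟩
        exact h.cup.mem (hM hy)
      · intro x hx hx0
        obtain ⟨u, hu, _, ⟨y, hy, rfl⟩, rfl⟩ := Submodule.mem_sup.1 hx
        have h1 := bf_prim h.cup hu.2 y
        have e : bf X w k (u + w y) (u + w y) = bf X w k u u + bf X w k (w y) (w y) := by
          have h2 := hH.add u (w y) (u + w y)
          have h3 := hH.add_right u u (w y)
          have h4 := hH.add_right (w y) u (w y)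
          have hs := sg_ne (p + 1) (q + 1)
          rw [h3, h4, h1.1, h1.2] at h2
          have h5 : sg (p + 1) (q + 1) * bf X w k (u + w y) (u + w y) =
            sg (p + 1) (q + 1) * (bf X w k u u + bf X w k (w y) (w y)) := by
            linarith
          exact mul_left_cancel₀ hs h5
        rw [e, bf_succ h.cup, sg_succ]
        by_cases hu0 : u = 0
        · have hy0 : y ≠ 0 := by
            rintro rfl
            apply hx0
            rw [hu0, map_zero, add_zero]
          have h2 := hNn y hy hy0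
          rw [hu0]
          have h3 : bf X w k 0 0 = 0 := by
            have := hH.zero_left 0
            exact (mul_eq_zero.1 this).resolve_left (sg_ne _ _)
          rw [h3]
          linarith
        · have h2 := h.pos hk hu.1 hu0 hu.2
          rw [sg_succ] at h2
          have h3 : sg p q * bf X w (k + 2) y y ≤ 0 := by
            by_cases hy0 : y = 0
            · rw [hy0]
              have := (isHerm (X := X) (w := w) (k := k + 2) (sg p q)).zero_left 0
              exact le_of_eq this
            · exact (hNn y hy hy0).le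
          linarith
      · rintro _ ⟨y, hy, rfl⟩ hx0
        have hy0 : y ≠ 0 := by
          rintro rfl
          exact hx0 (map_zero w)
        have h2 := hMp y hy hy0
        rw [bf_succ h.cup, sg_succ]
        linarith
      · have e : alt X (p + 1) (q + 1) = X.hodgeNumber (p + 1) (q + 1) - alt X p q := rfl
        rw [e, ← hMd]
        omega
      · omega

/-- A Kähler class: the positive part. -/
theorem kahler_pos (h : IsKahler X w) {p q k : ℕ} (hk : p + q + k = n) :
    ∃ M : Submodule ℂ X.H, M ≤ X.piece p q ∧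
      (∀ x ∈ M, x ≠ 0 → 0 < sg p q * bf X w k x x) ∧ (finrank ℂ M : ℤ) = alt X p q := by
  obtain ⟨M, -, h1, -, h2, -, h3, -⟩ := kahler_dec h p q k hk
  exact ⟨M, h1, h2, h3⟩

end Pool.Agent.R929.OD
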