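import Pool.Agent.R929.OD.Nef
import Pool.Agent.R929.DH.Low

/-!
# The index of the form of a nef class of defect at most two
-/

open scoped ComplexConjugate Topology

namespace Pool.Agent.R929.OD

open Module Finset Pool.Agent.TH125.Tw Pool.Agent.W539.DI
open Pool.Agent.R929.DH (IsHerm semi_sub exists_max_sub)

variable {n : ℕ} {X : Twisted n} {L : Module.End ℂ X.H}

theorem pow_lef (hc : ∀ x, L (X.lef x) = X.lef (L x)) (k : ℕ) (x : X.H) :
    (L ^ k) (X.lef x) = X.lef ((L ^ k) x) := by
  induction k with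
  | zero => rfl
  | succ k ih => rw [pow_succ', Module.End.mul_apply, Module.End.mul_apply, ih, hc]

/-- The vectors which are orthogonal to everything. -/
theorem pow_eq_zero (hL : IsCupProduct X.toGradedForm L) {p q k : ℕ}
    (hk : p + q + k = n) {z : X.H} (hz : z ∈ X.piece p q)
    (h : ∀ y ∈ X.piece p q, bf X L k z y = 0) : (L ^ k) z = 0 := by
  have h1 : ∀ y ∈ X.piece p q, (hf X L k z y).re = 0 := by
    intro y hy
    have h2 := hf_conj (X := X) (w := L) (k := k) hL hz hy (by omega) (by omega) ⟨n, by omega⟩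
    have h3 := h y hy
    unfold bf at h3
    rw [h2, Complex.conj_re] at h3
    linarith
  have h4 : ∀ y ∈ X.piece p q, hf X L k z y = 0 := by
    intro y hy
    have h5 := h1 (Complex.I • y) (Submodule.smul_mem _ _ hy)
    rw [hf_smul_right, Complex.conj_I] at h5
    refine Complex.ext (h1 y hy) ?_
    simp only [Complex.mul_re, Complex.neg_re, Complex.I_re, Complex.neg_im, Complex.I_im] at h5
    simp only [Complex.zero_im]
    linarith
  refine X.form_nondeg _ fun y => ?_
  refine X.ind (P := fun y => X.form ((L ^ k) z) y = 0) (map_zero _) ?_ ?_ y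
  · intro a b ha hb
    rw [map_add, ha, hb, add_zero]
  · intro p' q' y hy
    by_cases hpq : (p + k + q', q + k + p') = (n, n)
    · have e1 := congrArg Prod.fst hpq
      have e2 := congrArg Prod.snd hpq
      simp only at e1 e2
      have e3 : p' = p := by omega
      have e4 : q' = q := by omega
      rw [e3, e4] at hy
      have h6 := h4 y hy
      rw [hf_hom hz] at h6
      rw [pow_form hL]
      exact (mul_eq_zero.mp h6).resolve_left (pow_ne_zero _ Complex.I_ne_zero)
    · exact X.form_zero (pow_mem hL hz k) hy hpq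

/-- The relative Hodge-Riemann relations. -/
theorem rel_neg (hL : DefectTwo X L) {p q k : ℕ} (hk : p + q + k + 2 = n) {v : X.H}
    (hv : v ∈ X.piece p q) (hv0 : v ≠ 0) (h : (L ^ (k + 1)) v = 0) :
    sg p q * bf X L k (X.lef v) (X.lef v) < 0 := by
  have h1 := hL.rel p q k hk v hv hv0 h
  have e1 : hf X L k (X.lef v) (X.lef v) =
      -(Complex.I ^ (p + q) * X.form ((L ^ k) (X.lef (X.lef v))) v) := by
    rw [hf_mul_left X.lef_cup, X.dual_apply hv, map_smul, LinearMap.smul_apply, smul_eq_mul,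
      pow_lef hL.comm, pow_lef hL.comm, pow_lef hL.comm, ← X.lef_form, ← X.lef_form,
      ← pow_form hL.cup, pow_lef hL.comm, pow_lef hL.comm]
  have e2 : Complex.I ^ p * (-Complex.I) ^ q * (-1) ^ ((p + q) * (p + q - 1) / 2) *
      X.form ((L ^ k) (X.lef (X.lef v))) v = -((sg p q : ℂ) * hf X L k (X.lef v) (X.lef v)) := by
    rw [e1]
    unfold sg
    push_cast
    rw [neg_pow Complex.I q, pow_add]
    ring
  rw [e2, Complex.neg_re, Complex.re_ofReal_mul] at h1
  rw [bf_self]
  linarith

theorem neg_dim (hL : DefectTwo X L) : ∀ (p q k : ℕ), p + q + k = n →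
    ∃ M M' : Submodule ℂ X.H, M ≤ X.piece p q ∧ M' ≤ X.piece p q ∧
      (∀ x ∈ M, x ≠ 0 → sg p q * bf X L k x x < 0) ∧
      (∀ x ∈ M', 0 ≤ sg p q * bf X L k x x) ∧
      finrank ℂ M + finrank ℂ M' = X.hodgeNumber p q ∧ (finrank ℂ M' : ℤ) = alt X p q ∧
      (∀ x ∈ X.piece p q, (∀ y ∈ X.piece p q, sg p q * bf X L k x y = 0) → x ∈ M') := by
  intro p
  induction p with
  | zero =>
    intro q k hk
    have hH := isHerm (X := X) (w := L) (k := k) (sg 0 q)
    obtain ⟨M, M', hM, hM', neg, pos, hsum, hrad⟩ := exists_max_sub hH (X.piece 0 q)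
    have hup := nef_bound hL hk M hM neg
    have hA : alt X 0 q = X.hodgeNumber 0 q := rfl
    have hs : finrank ℂ M + finrank ℂ M' = X.hodgeNumber 0 q := hsum
    exact ⟨M, M', hM, hM', neg, pos, hsum, by rw [hA] at hup ⊢; omega, hrad⟩
  | succ p ih =>
    intro q k hk
    rcases q with _ | q
    · have hH := isHerm (X := X) (w := L) (k := k) (sg (p + 1) 0)
      obtain ⟨M, M', hM, hM', neg, pos, hsum, hrad⟩ := exists_max_sub hH (X.piece (p + 1) 0)
      have hup := nef_bound hL hk M hM neg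
      have hA : alt X (p + 1) 0 = X.hodgeNumber (p + 1) 0 := rfl
      have hs : finrank ℂ M + finrank ℂ M' = X.hodgeNumber (p + 1) 0 := hsum
      exact ⟨M, M', hM, hM', neg, pos, hsum, by rw [hA] at hup ⊢; omega, hrad⟩
    have hH := isHerm (X := X) (w := L) (k := k) (sg (p + 1) (q + 1))
    obtain ⟨M, M', hM, hM', neg, pos, hsum, hrad⟩ := exists_max_sub hH (X.piece (p + 1) (q + 1))
    obtain ⟨N, N', hN, hN', negN, posN, hsumN, hAN, hradN⟩ := ih q (k + 2) (by omega)
    have hk2 : p + q + k + 2 = n := by omega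
    -- the classes killed by `L ^ (k + 1)`
    let P : Submodule ℂ X.H := X.piece p q ⊓ LinearMap.ker (L ^ (k + 1))
    have hP : ∀ v ∈ P, v ∈ X.piece p q ∧ (L ^ (k + 1)) v = 0 := fun v hv => ⟨hv.1, hv.2⟩
    have hPdual : ∀ v ∈ P, (L ^ (k + 1)) (X.dual v) = 0 := by
      intro v hv
      rw [X.dual_apply (hP v hv).1, map_smul, (hP v hv).2, smul_zero]
    have hPN : P ≤ N' := by
      intro v hv
      refine hradN v (hP v hv).1 fun y _ => ?_
      have h1 : hf X L (k + 2) v y = 0 := by
        unfold hf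
        rw [← pow_form hL.cup, show k + 2 = (k + 1) + 1 from rfl, pow_succ' L (k + 1),
          Module.End.mul_apply, hPdual v hv, map_zero, map_zero, LinearMap.zero_apply]
      have h2 : hf X L (k + 2) y v = 0 := by
        unfold hf
        rw [show k + 2 = (k + 1) + 1 from rfl, pow_succ' L (k + 1), Module.End.mul_apply,
          (hP v hv).2, map_zero, map_zero]
      unfold bf
      rw [h1, h2]
      simp
    obtain ⟨C, hC⟩ := Submodule.exists_isCompl P
    let W : Submodule ℂ X.H := N' ⊓ C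
    have hPW : P ⊔ W = N' := by
      have : P ⊔ C ⊓ N' = (P ⊔ C) ⊓ N' := (sup_inf_assoc_of_le C hPN).symm
      show P ⊔ N' ⊓ C = N'
      rw [inf_comm, this, hC.sup_eq_top, top_inf_eq]
    have hPWd : P ⊓ W = ⊥ := by
      rw [eq_bot_iff]
      rintro x ⟨hx1, -, hx2⟩
      have : x ∈ P ⊓ C := ⟨hx1, hx2⟩
      rwa [hC.inf_eq_bot] at this
    have hdim : finrank ℂ P + finrank ℂ W = finrank ℂ N' := by
      have h1 := Submodule.finrank_sup_add_finrank_inf_eq P W
      rw [hPW, hPWd, finrank_bot, add_zero] at h1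
      exact h1.symm
    -- mixed terms
    have hmix1 : ∀ w : X.H, ∀ v ∈ P, hf X L k (L w) (X.lef v) = 0 := by
      intro w v hv
      rw [hf_succ_left hL.cup]
      unfold hf
      rw [pow_lef hL.comm, (hP v hv).2, map_zero, map_zero, neg_zero]
    have hmix2 : ∀ w : X.H, ∀ v ∈ P, hf X L k (X.lef v) (L w) = 0 := by
      intro w v hv
      rw [hf_succ_right]
      unfold hf
      rw [← pow_form hL.cup, dual_cup X.lef_cup, map_neg, pow_lef hL.comm, hPdual v hv,
        map_zero, neg_zero, map_zero, LinearMap.zero_apply]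
    have hmix : ∀ w : X.H, ∀ v ∈ P, sg (p + 1) (q + 1) * bf X L k (L w) (X.lef v) = 0 := by
      intro w v hv
      unfold bf
      rw [hmix1 w v hv, hmix2 w v hv]
      simp
    have hωneg : ∀ v ∈ P, v ≠ 0 →
        sg (p + 1) (q + 1) * bf X L k (X.lef v) (X.lef v) < 0 := by
      intro v hv hv0
      rw [sg_succ]
      exact rel_neg hL hk2 (hP v hv).1 hv0 (hP v hv).2
    have hLneg : ∀ w ∈ W, sg (p + 1) (q + 1) * bf X L k (L w) (L w) ≤ 0 := by
      intro w hw
      have h1 := posN w hw.1
      rw [bf_succ hL.cup, sg_succ]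
      linarith
    have hLmem : ∀ w ∈ X.piece p q, L w ∈ X.piece (p + 1) (q + 1) := fun w hw => hL.cup.mem hw
    have hωmem : ∀ w ∈ X.piece p q, X.lef w ∈ X.piece (p + 1) (q + 1) :=
      fun w hw => X.lef_mem hw
    have key : ∀ w ∈ W, ∀ v ∈ P, (∀ y ∈ X.piece (p + 1) (q + 1),
        sg (p + 1) (q + 1) * bf X L k (L w + X.lef v) y = 0) → w = 0 ∧ v = 0 := by
      intro w hw v hv h
      have hv0 : v = 0 := by
        by_contra hv0
        have h1 := h _ (hωmem v (hP v hv).1)
        have h2 := hH.add (L w) (X.lef v) (X.lef v)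
        rw [h2, hmix w v hv, zero_add] at h1
        have h3 := hωneg v hv hv0
        linarith
      refine ⟨?_, hv0⟩
      rw [hv0, map_zero, add_zero] at h
      have h1 : (L ^ k) (L w) = 0 := by
        refine pow_eq_zero hL.cup hk (hLmem w (hN' hw.1)) fun y hy => ?_
        exact (mul_eq_zero.mp (h y hy)).resolve_left (sg_ne (p + 1) (q + 1))
      rw [← Module.End.mul_apply, ← pow_succ] at h1
      have h2 : w ∈ P ⊓ W := ⟨⟨hN' hw.1, h1⟩, hw⟩
      rw [hPWd, Submodule.mem_bot] at h2
      exact h2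
    let S₁ : Submodule ℂ X.H := Submodule.map L W
    let S₂ : Submodule ℂ X.H := Submodule.map X.lef P
    have hzero : ∀ y : X.H, sg (p + 1) (q + 1) * bf X L k 0 y = 0 := fun y => hH.zero_left y
    have hd1 : finrank ℂ S₁ = finrank ℂ W := by
      refine finrank_map_of_inj _ _ fun w hw h0 => (key w hw 0 P.zero_mem fun y _ => ?_).1
      rw [h0, map_zero, add_zero]
      exact hzero y
    have hd2 : finrank ℂ S₂ = finrank ℂ P := by
      refine finrank_map_of_inj _ _ fun v hv h0 => (key 0 W.zero_mem v hv fun y _ => ?_).2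
      rw [h0, map_zero, add_zero]
      exact hzero y
    have hd3 : S₁ ⊓ S₂ = ⊥ := by
      rw [eq_bot_iff]
      rintro _ ⟨⟨w, hw, rfl⟩, ⟨v, hv, hvw⟩⟩
      have h1 := (key w hw (-v) (P.neg_mem hv) fun y _ => by
        rw [map_neg, hvw, add_neg_cancel]
        exact hzero y).1
      rw [Submodule.mem_bot, h1, map_zero]
    have hdS : finrank ℂ (S₁ ⊔ S₂ : Submodule ℂ X.H) = finrank ℂ N' := by
      have h1 := Submodule.finrank_sup_add_finrank_inf_eq S₁ S₂
      rw [hd3, finrank_bot, add_zero, hd1, hd2] at h1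
      omega
    have hS : ∀ x ∈ S₁ ⊔ S₂, ∃ w ∈ W, ∃ v ∈ P, x = L w + X.lef v := by
      intro x hx
      rw [Submodule.mem_sup] at hx
      obtain ⟨_, ⟨w, hw, rfl⟩, _, ⟨v, hv, rfl⟩, rfl⟩ := hx
      exact ⟨w, hw, v, hv, rfl⟩
    have hfin := semi_sub hH (X.piece (p + 1) (q + 1)) M' (S₁ ⊔ S₂) ⊥ hM'
      (by
        intro x hx
        obtain ⟨w, hw, v, hv, rfl⟩ := hS x hx
        exact Submodule.add_mem _ (hLmem w (hN' hw.1)) (hωmem v (hP v hv).1))
      pos
      (by
        intro x hx
        obtain ⟨w, hw, v, hv, rfl⟩ := hS x hx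
        have h1 := hH.add (L w) (X.lef v) (L w + X.lef v)
        have h2 := hH.add_right (L w) (L w) (X.lef v)
        have h3 := hH.add_right (X.lef v) (L w) (X.lef v)
        have h4 := hH.symm (X.lef v) (L w)
        rw [h1, h2, h3, h4, hmix w v hv]
        have h5 := hLneg w hw
        have h6 : sg (p + 1) (q + 1) * bf X L k (X.lef v) (X.lef v) ≤ 0 := by
          by_cases hv0 : v = 0
          · rw [hv0, map_zero, hzero]
          · exact (hωneg v hv hv0).le
        linarith)
      (by
        intro x hx hxy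
        obtain ⟨w, hw, v, hv, rfl⟩ := hS x hx
        obtain ⟨h1, h2⟩ := key w hw v hv hxy
        rw [h1, h2, map_zero, map_zero, add_zero]
        exact Submodule.zero_mem _)
    rw [hdS, finrank_bot, add_zero] at hfin
    have hup := nef_bound hL hk M hM neg
    refine ⟨M, M', hM, hM', neg, pos, hsum, ?_, hrad⟩
    have hA : alt X (p + 1) (q + 1) = X.hodgeNumber (p + 1) (q + 1) - alt X p q := rfl
    have hsum' : finrank ℂ M + finrank ℂ M' = X.hodgeNumber (p + 1) (q + 1) := hsum
    have hfin' : finrank ℂ M' + finrank ℂ N' ≤ X.hodgeNumber (p + 1) (q + 1) := hfin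
    rw [hA] at hup ⊢
    rw [← hAN] at hup ⊢
    omega

end Pool.Agent.R929.OD
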