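import Pool.Agent.R929.OD.Basic

/-!
# The Hodge numbers
-/

namespace Pool.Agent.R929.OD

open Module Finset Pool.Agent.TH125.Tw

variable {n : ℕ} {X Y : Twisted n} {L : Module.End ℂ X.H} {L' : Module.End ℂ Y.H}

/-- The inverse transform. -/
noncomputable def symm (Φ : Transform X Y) : Transform Y X where
  map := Φ.map.symm
  map_mem := fun {_ _ _} hy => Φ.symm_column (Y.piece_le_column _ _ hy)
  map_mukai x y := by
    rw [← Φ.map_mukai, LinearEquiv.apply_symm_apply, LinearEquiv.apply_symm_apply]

theorem Intertwines.symm {Φ : Transform X Y} (h : Intertwines Φ L L') :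
    Intertwines (symm Φ) L' L := by
  intro y
  show Φ.map.symm (L' y) = L (Φ.map.symm y)
  apply Φ.map.injective
  rw [LinearEquiv.apply_symm_apply, h, LinearEquiv.apply_symm_apply]

theorem basic_eq (hX : DefectTwo X L) (hY : DefectTwo Y L') (Φ : Transform X Y)
    (hΦ : Intertwines Φ L L') {a b s₀ κ : ℕ} (hab : a = 0 ∨ b = 0)
    (hn : a + b + 2 * s₀ + κ = n) :
    (finrank ℂ (X.low (a + (s₀ + 1)) (b + (s₀ + 1)) (s₀ + κ)) : ℤ) + alt X (a + s₀) (b + s₀) =
      finrank ℂ (Y.low (a + (s₀ + 1)) (b + (s₀ + 1)) (s₀ + κ)) + alt Y (a + s₀) (b + s₀) :=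
  le_antisymm (basic hX hY Φ hΦ hab hn) (basic hY hX (symm Φ) hΦ.symm hab hn)

theorem alt_congr {a b : ℕ} (hab : a = 0 ∨ b = 0) (s : ℕ)
    (h : ∀ j ≤ s, X.hodgeNumber (a + j) (b + j) = Y.hodgeNumber (a + j) (b + j)) :
    alt X (a + s) (b + s) = alt Y (a + s) (b + s) := by
  induction s with
  | zero =>
    have h0 := h 0 le_rfl
    have e : ∀ Z : Twisted n, alt Z (a + 0) (b + 0) = Z.hodgeNumber (a + 0) (b + 0) := by
      intro Z
      rcases hab with rfl | rfl
      · rw [Nat.add_zero]
        rfl
      · rcases a with _ | a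
        · rfl
        · rfl
    rw [e, e, h0]
  | succ s ih =>
    have e : ∀ Z : Twisted n, alt Z (a + (s + 1)) (b + (s + 1)) =
      Z.hodgeNumber (a + (s + 1)) (b + (s + 1)) - alt Z (a + s) (b + s) := fun Z => rfl
    rw [e, e, ih fun j hj => h j (by omega), h (s + 1) le_rfl]

theorem lower (hX : DefectTwo X L) (hY : DefectTwo Y L') (Φ : Transform X Y)
    (hΦ : Intertwines Φ L L') {a b t : ℕ} (hab : a = 0 ∨ b = 0) (ht : a + b + t = n) :
    ∀ s, 2 * s + 2 ≤ t → X.hodgeNumber (a + s) (b + s) = Y.hodgeNumber (a + s) (b + s) := by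
  intro s
  induction s using Nat.strong_induction_on with
  | _ s ih =>
    intro hs
    obtain ⟨κ, hκ⟩ : ∃ κ, t = 2 * (s + 1) + κ := ⟨t - 2 * (s + 1), by omega⟩
    have h1 := basic_eq hX hY Φ hΦ (s₀ := s + 1) (κ := κ) hab (by omega)
    have h2 := column_sum Φ hab ht
    have hone : ∀ Z : Twisted n, finrank ℂ (Z.low (a + (s + 1)) (b + (s + 1)) 1) =
        Z.hodgeNumber (a + (s + 1)) (b + (s + 1)) := by
      intro Z
      rw [Z.finrank_low]
      simp
    have hsplit : ∀ Z : Twisted n, finrank ℂ (Z.low a b (t + 1)) =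
        finrank ℂ (Z.low a b (s + 1)) + (Z.hodgeNumber (a + (s + 1)) (b + (s + 1)) +
          finrank ℂ (Z.low (a + (s + 1 + 1)) (b + (s + 1 + 1)) (s + 1 + κ))) := by
      intro Z
      have e1 : t + 1 = (s + 1) + (1 + (s + 1 + κ)) := by omega
      rw [e1, low_add Z a b (s + 1), low_add Z (a + (s + 1)) (b + (s + 1)) 1, hone]
      rfl
    rw [← X.finrank_low, ← Y.finrank_low, hsplit, hsplit] at h2
    have hsum : ∀ Z : Twisted n, finrank ℂ (Z.low a b (s + 1)) =
        (∑ j ∈ range s, Z.hodgeNumber (a + j) (b + j)) + Z.hodgeNumber (a + s) (b + s) := by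
      intro Z
      rw [Z.finrank_low, Finset.sum_range_succ]
    have hS : ∑ j ∈ range s, X.hodgeNumber (a + j) (b + j) =
        ∑ j ∈ range s, Y.hodgeNumber (a + j) (b + j) :=
      Finset.sum_congr rfl fun j hj => by
        rw [mem_range] at hj
        exact ih j hj (by omega)
    have e : ∀ Z : Twisted n, alt Z (a + (s + 1)) (b + (s + 1)) =
      Z.hodgeNumber (a + (s + 1)) (b + (s + 1)) - alt Z (a + s) (b + s) := fun Z => rfl
    rw [e, e] at h1
    rw [hsum, hsum, hS] at h2
    -- the alternating sum at `s`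
    have hA : alt X (a + s) (b + s) - X.hodgeNumber (a + s) (b + s) =
        alt Y (a + s) (b + s) - Y.hodgeNumber (a + s) (b + s) := by
      rcases s with _ | s
      · have e0 : ∀ Z : Twisted n, alt Z (a + 0) (b + 0) = Z.hodgeNumber (a + 0) (b + 0) := by
          intro Z
          rcases hab with rfl | rfl
          · rw [Nat.add_zero]
            rfl
          · rcases a with _ | a
            · rfl
            · rfl
        rw [e0, e0, sub_self, sub_self]
      · have e1 : ∀ Z : Twisted n, alt Z (a + (s + 1)) (b + (s + 1)) =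
          Z.hodgeNumber (a + (s + 1)) (b + (s + 1)) - alt Z (a + s) (b + s) := fun Z => rfl
        rw [e1, e1, alt_congr (X := X) (Y := Y) hab s fun j hj => ih j (by omega) (by omega)]
        ring
    omega

/-- **Main theorem on Hodge numbers.** -/
theorem main (hX : DefectTwo X L) (hY : DefectTwo Y L') (Φ : Transform X Y)
    (hΦ : Intertwines Φ L L') (p q : ℕ) : X.hodgeNumber p q = Y.hodgeNumber p q := by
  by_cases hpq : n < p ∨ n < q
  · rw [X.hodge_large hpq, Y.hodge_large hpq]
  push Not at hpq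
  have key : ∀ a b t s : ℕ, (a = 0 ∨ b = 0) → a + b + t = n → s ≤ t →
      X.hodgeNumber (a + s) (b + s) = Y.hodgeNumber (a + s) (b + s) := by
    intro a b t s hab ht hst
    have hlow := lower hX hY Φ hΦ hab ht
    have hsym : ∀ (Z : Twisted n) (s : ℕ), s ≤ t → Z.hodgeNumber (a + s) (b + s) =
        Z.hodgeNumber (a + (t - s)) (b + (t - s)) := fun Z s hs =>
      Z.dim_eq (by omega) (by omega)
    have hfar : ∀ s ≤ t, (2 * s + 2 ≤ t ∨ t + 2 ≤ 2 * s) →
        X.hodgeNumber (a + s) (b + s) = Y.hodgeNumber (a + s) (b + s) := by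
      intro s hs h
      rcases h with h | h
      · exact hlow s h
      · rw [hsym X s hs, hsym Y s hs]
        exact hlow (t - s) (by omega)
    by_cases h : 2 * s + 2 ≤ t ∨ t + 2 ≤ 2 * s
    · exact hfar s hst h
    push Not at h
    have htot := column_sum Φ hab ht
    have htot' : ∑ j ∈ range (t + 1), ((X.hodgeNumber (a + j) (b + j) : ℤ) -
        Y.hodgeNumber (a + j) (b + j)) = 0 := by
      rw [Finset.sum_sub_distrib, sub_eq_zero]
      exact_mod_cast htot
    by_cases h0 : t = 2 * s
    · rw [Finset.sum_eq_single s] at htot'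
      · omega
      · intro j hj hjs
        rw [mem_range] at hj
        rw [hfar j (by omega) (by omega), sub_self]
      · intro h1
        exact absurd (mem_range.2 (by omega)) h1
    · have hsy := hsym X s hst
      have hsy' := hsym Y s hst
      rw [Finset.sum_eq_add s (t - s) (by omega)] at htot'
      · rw [← hsy, ← hsy'] at htot'
        omega
      · intro j hj hjs
        rw [mem_range] at hj
        rw [hfar j (by omega) (by omega), sub_self]
      · intro h1
        exact absurd (mem_range.2 (by omega)) h1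
      · intro h1
        exact absurd (mem_range.2 (by omega)) h1
  obtain ⟨h1, h2⟩ := hpq
  rcases Nat.le_total p q with h | h
  · have := key 0 (q - p) (n - (q - p)) p (Or.inl rfl) (by omega) (by omega)
    rwa [zero_add, Nat.sub_add_cancel h] at this
  · have := key (p - q) 0 (n - (p - q)) q (Or.inr rfl) (by omega) (by omega)
    rwa [zero_add, Nat.sub_add_cancel h] at this

end Pool.Agent.R929.OD
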