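import Pool.Agent.R929.OD.Kahler

/-!
# Nef classes of defect at most two: upper bound for the negative index
-/

open scoped ComplexConjugate Topology

namespace Pool.Agent.R929.OD

open Module Finset Pool.Agent.TH125.Tw Pool.Agent.R929.DH

variable {n : ℕ}

/-- `L ^ k` is injective on the classes of degree `n - 2 - k` (for a Kähler class it is injective on
the classes of degree `n - k`). -/
def RelativeLefschetz (X : Twisted n) (L : Module.End ℂ X.H) : Prop :=
  ∀ (p q k : ℕ), p + q + k + 2 = n → ∀ x ∈ X.piece p q, (L ^ k) x = 0 → x = 0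

/-- The relative Hodge-Riemann bilinear relations for the classes `x` of degree `n - 2 - k` with
`L ^ (k + 1) x = 0`, the primitive classes of lowest perversity. -/
def RelativeHodgeRiemann (X : Twisted n) (L : Module.End ℂ X.H) : Prop :=
  ∀ (p q k : ℕ), p + q + k + 2 = n → ∀ x ∈ X.piece p q, x ≠ 0 → (L ^ (k + 1)) x = 0 →
    0 < (Complex.I ^ p * (-Complex.I) ^ q * (-1) ^ ((p + q) * (p + q - 1) / 2) *
      X.form ((L ^ k) (X.lef (X.lef x))) x).re

/-- The operator `L` has the properties of the product with a nef class which is the pull-back of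
an ample class under a morphism whose defect of semismallness is at most two (for example a
morphism with equidimensional fibres of dimension at most two):

* `cup`, `comm`: it is of type `(1, 1)`, self-adjoint and commutes with the Lefschetz operator `ω`;
* `nef`: `L + t ω` has the properties of a Kähler class for all `t > 0`;
* `inj`, `rel`: the relative hard Lefschetz theorem and the relative Hodge-Riemann relations for the
  classes of lowest perversity. -/
structure DefectTwo (X : Twisted n) (L : Module.End ℂ X.H) : Prop where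
  cup : IsCupProduct X.toGradedForm L
  comm : ∀ x, L (X.lef x) = X.lef (L x)
  nef : ∀ t : ℝ, 0 < t → IsKahler X (L + (t : ℂ) • X.lef)
  inj : RelativeLefschetz X L
  rel : RelativeHodgeRiemann X L

variable {X : Twisted n}

/-- The forms of `L + t ω` depend continuously on `t`. -/
theorem continuous_form (L : Module.End ℂ X.H) (k : ℕ) : ∀ u v : X.H,
    Continuous (fun t : ℝ => X.form u (((L + (t : ℂ) • X.lef) ^ k) v)) := by
  induction k with
  | zero =>
    intro u v
    simpa using continuous_const
  | succ k ih =>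
    intro u v
    have e : ∀ t : ℝ, X.form u (((L + (t : ℂ) • X.lef) ^ (k + 1)) v) =
        X.form u (((L + (t : ℂ) • X.lef) ^ k) (L v)) +
          conj (t : ℂ) * X.form u (((L + (t : ℂ) • X.lef) ^ k) (X.lef v)) := by
      intro t
      rw [pow_succ, Module.End.mul_apply, LinearMap.add_apply, LinearMap.smul_apply, map_add,
        map_add, map_smul, LinearMap.map_smulₛₗ, smul_eq_mul]
    simp only [e, Complex.conj_ofReal]
    exact (ih u (L v)).add (Complex.continuous_ofReal.mul (ih u (X.lef v)))

/-- If the form of `L` is negative definite on a subspace then so are the forms of the classes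
`L + t ω` for small `t`. -/
theorem nef_limit (L : Module.End ℂ X.H) (S : Submodule ℂ X.H) (e : ℝ) (k : ℕ)
    (hS : ∀ x ∈ S, x ≠ 0 → e * bf X L k x x < 0) :
    ∃ t : ℝ, 0 < t ∧ ∀ x ∈ S, x ≠ 0 → e * bf X (L + (t : ℂ) • X.lef) k x x < 0 := by
  let b := Module.finBasis ℂ S
  let φ : (Fin (finrank ℂ S) → ℂ) ≃ₗ[ℂ] S := b.equivFun.symm
  have hφ : ∀ z, ((φ z : S) : X.H) = ∑ i, z i • ((b i : S) : X.H) := by
    intro z
    have h1 : φ z = ∑ i, z i • b i := b.equivFun_symm_apply z
    rw [h1]
    push_cast
    rfl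
  let G : ℝ × (Fin (finrank ℂ S) → ℂ) → ℝ := fun p =>
    e * bf X (L + ((p.1 : ℝ) : ℂ) • X.lef) k (φ p.2 : S) (φ p.2 : S)
  have hsum : ∀ (w : Module.End ℂ X.H) (z : Fin (finrank ℂ S) → ℂ),
      hf X w k (φ z : S) (φ z : S) = ∑ i, ∑ j, z i * (conj (z j) * hf X w k (b i : S) (b j : S)) := by
    intro w z
    have h1 : ∀ (s : Finset (Fin (finrank ℂ S))) (y : X.H),
        hf X w k (∑ i ∈ s, z i • ((b i : S) : X.H)) y = ∑ i ∈ s, z i * hf X w k (b i : S) y := by
      intro s y
      induction s using Finset.cons_induction with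
      | empty =>
        have := hf_smul_left (X := X) (w := w) (k := k) 0 0 y
        simpa using this
      | cons a s ha ih => rw [Finset.sum_cons, Finset.sum_cons, hf_add_left, hf_smul_left, ih]
    have h2 : ∀ (s : Finset (Fin (finrank ℂ S))) (y : X.H),
        hf X w k y (∑ i ∈ s, z i • ((b i : S) : X.H)) =
          ∑ i ∈ s, conj (z i) * hf X w k y (b i : S) := by
      intro s y
      induction s using Finset.cons_induction with
      | empty =>
        have := hf_smul_right (X := X) (w := w) (k := k) 0 y 0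
        simpa using this
      | cons a s ha ih => rw [Finset.sum_cons, Finset.sum_cons, hf_add_right, hf_smul_right, ih]
    rw [hφ, h1]
    refine Finset.sum_congr rfl fun i _ => ?_
    rw [h2, Finset.mul_sum]
  have hG : Continuous G := by
    refine continuous_const.mul ?_
    have h1 : ∀ i j, Continuous (fun p : ℝ × (Fin (finrank ℂ S) → ℂ) =>
        hf X (L + ((p.1 : ℝ) : ℂ) • X.lef) k (b i : S) (b j : S)) := fun i j =>
      (continuous_form L k (X.dual (b i : S)) (b j : S)).comp continuous_fst
    have h2 : Continuous (fun p : ℝ × (Fin (finrank ℂ S) → ℂ) =>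
        hf X (L + ((p.1 : ℝ) : ℂ) • X.lef) k (φ p.2 : S) (φ p.2 : S)) := by
      simp only [hsum]
      refine continuous_finsetSum _ fun i _ => continuous_finsetSum _ fun j _ => ?_
      refine Continuous.mul ?_ (Continuous.mul ?_ (h1 i j))
      · exact (continuous_apply i).comp continuous_snd
      · exact Complex.continuous_conj.comp ((continuous_apply j).comp continuous_snd)
    exact (Complex.continuous_re.comp h2).add (Complex.continuous_re.comp h2)
  have hK : IsCompact (Metric.sphere (0 : Fin (finrank ℂ S) → ℂ) 1) := isCompact_sphere 0 1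
  have hev := hK.eventually_forall_of_forall_eventually (x₀ := (0 : ℝ))
    (P := fun t z => G (t, z) < 0) (fun z hz => by
      have h1 : G (0, z) < 0 := by
        have hz0 : ((φ z : S) : X.H) ≠ 0 := by
          intro h0
          have h2 : φ z = 0 := Subtype.ext h0
          have h3 : z = 0 := by simpa using h2
          rw [h3, mem_sphere_zero_iff_norm, norm_zero] at hz
          norm_num at hz
        have := hS _ (φ z).2 hz0
        simpa [G] using this
      exact (hG.tendsto (0, z)).eventually_lt_const h1)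
  have hev2 : ∀ᶠ t in 𝓝[>] (0 : ℝ), ∀ z ∈ Metric.sphere (0 : Fin (finrank ℂ S) → ℂ) 1,
      G (t, z) < 0 := hev.filter_mono nhdsWithin_le_nhds
  obtain ⟨t, ht, ht0⟩ := (hev2.and self_mem_nhdsWithin).exists
  refine ⟨t, ht0, fun x hx hx0 => ?_⟩
  set z := φ.symm ⟨x, hx⟩ with hz
  have hxz : ((φ z : S) : X.H) = x := by rw [hz, LinearEquiv.apply_symm_apply]
  have hz0 : z ≠ 0 := by
    intro h0
    rw [h0, map_zero] at hxz
    exact hx0 hxz.symm
  have hn : 0 < ‖z‖ := norm_pos_iff.mpr hz0
  have h1 := ht (((‖z‖⁻¹ : ℝ) : ℂ) • z) (by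
    rw [mem_sphere_zero_iff_norm, norm_smul, Complex.norm_real, norm_inv, norm_norm,
      inv_mul_cancel₀ hn.ne'])
  have h2 : G (t, ((‖z‖⁻¹ : ℝ) : ℂ) • z) =
      (‖z‖⁻¹) ^ 2 * (e * bf X (L + (t : ℂ) • X.lef) k x x) := by
    show e * bf X (L + ((t : ℝ) : ℂ) • X.lef) k (φ (((‖z‖⁻¹ : ℝ) : ℂ) • z) : S) _ = _
    rw [map_smul]
    have h3 := (isHerm (X := X) (w := L + ((t : ℝ) : ℂ) • X.lef) (k := k) e).smul_self
      ((‖z‖⁻¹ : ℝ) : ℂ) x
    rw [Complex.normSq_ofReal] at h3
    rw [show ((((‖z‖⁻¹ : ℝ) : ℂ) • φ z : S) : X.H) = ((‖z‖⁻¹ : ℝ) : ℂ) • x by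
      rw [Submodule.coe_smul, hxz]]
    rw [h3]
    ring
  have h4 : G (t, ((‖z‖⁻¹ : ℝ) : ℂ) • z) < 0 := h1
  rw [h2] at h4
  have h5 : 0 < (‖z‖⁻¹) ^ 2 := by positivity
  by_contra hcon
  push Not at hcon
  have := mul_nonneg h5.le hcon
  linarith

/-- **Upper bound for the negative index of a nef class.** -/
theorem nef_bound {L : Module.End ℂ X.H} (hL : DefectTwo X L) {p q k : ℕ}
    (hk : p + q + k = n) (S : Submodule ℂ X.H) (hSp : S ≤ X.piece p q)
    (hS : ∀ x ∈ S, x ≠ 0 → sg p q * bf X L k x x < 0) :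
    (finrank ℂ S : ℤ) + alt X p q ≤ X.hodgeNumber p q := by
  obtain ⟨t, ht, h1⟩ := nef_limit L S (sg p q) k hS
  obtain ⟨M, hM, h2, h3⟩ := kahler_pos (hL.nef t ht) hk
  have hd : S ⊓ M = ⊥ := by
    rw [eq_bot_iff]
    rintro x ⟨hx1, hx2⟩
    rw [Submodule.mem_bot]
    by_contra hx0
    have := h1 x hx1 hx0
    have := h2 x hx2 hx0
    linarith
  have h4 := Submodule.finrank_sup_add_finrank_inf_eq S M
  rw [hd, finrank_bot, add_zero] at h4
  have h5 := Submodule.finrank_mono (sup_le hSp hM)
  rw [← h3]
  unfold Twisted.hodgeNumber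
  exact_mod_cast (h4 ▸ h5 : finrank ℂ S + finrank ℂ M ≤ finrank ℂ (X.piece p q))

end Pool.Agent.R929.OD
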